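import Pool.Agent.R906.QK.MomA

/-!
The probability that all of finitely many random numbers are zero, from the joint moments.
-/

set_option autoImplicit false

open Finset Filter

namespace Pool.Agent.R306.QJ

open Pool.Agent.R906.QK

/-- telescoping of a difference of products -/
theorem prod_diff {I : Type} [DecidableEq I] (s : Finset I) (a b d G : I → ℝ)
    (ha : ∀ i, |a i| ≤ G i) (hb : ∀ i, |b i| ≤ G i) (hd : ∀ i, |a i - b i| ≤ d i) :
    |∏ i ∈ s, a i - ∏ i ∈ s, b i| ≤ ∑ i ∈ s, ∏ k ∈ s, (if k = i then d k else G k) := by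
  have hG : ∀ i, 0 ≤ G i := fun i => (abs_nonneg _).trans (ha i)
  have hd0 : ∀ i, 0 ≤ d i := fun i => (abs_nonneg _).trans (hd i)
  induction s using Finset.induction_on with
  | empty => simp
  | insert j s hj ih =>
    rw [Finset.prod_insert hj, Finset.prod_insert hj, Finset.sum_insert hj]
    have e1 : a j * ∏ i ∈ s, a i - b j * ∏ i ∈ s, b i =
        (a j - b j) * ∏ i ∈ s, a i + b j * (∏ i ∈ s, a i - ∏ i ∈ s, b i) := by ring
    rw [e1]
    refine (abs_add_le _ _).trans (add_le_add ?_ ?_)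
    · rw [Finset.prod_insert hj, if_pos rfl, abs_mul]
      apply mul_le_mul (hd j) _ (abs_nonneg _) (hd0 j)
      rw [Finset.abs_prod]
      have : ∏ k ∈ s, (if k = j then d k else G k) = ∏ k ∈ s, G k := by
        apply Finset.prod_congr rfl
        intro k hk
        rw [if_neg]
        rintro rfl
        exact hj hk
      rw [this]
      exact Finset.prod_le_prod (fun i _ => abs_nonneg _) fun i _ => ha i
    · rw [abs_mul]
      have : ∑ i ∈ s, ∏ k ∈ insert j s, (if k = i then d k else G k) =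
          G j * ∑ i ∈ s, ∏ k ∈ s, (if k = i then d k else G k) := by
        rw [Finset.mul_sum]
        apply Finset.sum_congr rfl
        intro i hi
        rw [Finset.prod_insert hj, if_neg]
        rintro rfl
        exact hj hi
      rw [this]
      exact mul_le_mul (hb j) ih (abs_nonneg _) (hG j)

/-- `∏_{i < m} (2 ^ ρ - 2 ^ i)` is not negative -/
theorem pr_nonneg (m ρ : ℕ) : 0 ≤ ∏ i ∈ range m, ((2 : ℝ) ^ ρ - 2 ^ i) := by
  by_cases hT : ρ < m
  · rw [Finset.prod_eq_zero (i := ρ) (Finset.mem_range.2 hT) (sub_self _)]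
  · apply Finset.prod_nonneg
    intro i hi
    rw [Finset.mem_range] at hi
    have : (2 : ℝ) ^ i ≤ 2 ^ ρ := pow_le_pow_right₀ (by norm_num) (by omega)
    linarith

/-- the same for the shifted product -/
theorem pr_nonneg' (T ρ : ℕ) (hρ : ρ ≠ 0) :
    0 ≤ aa T * ∏ i ∈ range T, ((2 : ℝ) ^ ρ - 2 ^ (i + 1)) := by
  apply mul_nonneg (aa_nonneg T)
  by_cases hT : ρ ≤ T
  · rw [Finset.prod_eq_zero (i := ρ - 1)]
    · rw [Finset.mem_range]; omega
    · rw [show ρ - 1 + 1 = ρ by omega, sub_self]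
  · apply Finset.prod_nonneg
    intro i hi
    rw [Finset.mem_range] at hi
    have : (2 : ℝ) ^ (i + 1) ≤ 2 ^ ρ := pow_le_pow_right₀ (by norm_num) (by omega)
    linarith

/-- the moment weight -/
noncomputable def gg (m ρ : ℕ) : ℝ := aa m * ∏ i ∈ range m, ((2 : ℝ) ^ ρ - 2 ^ i)

theorem gg_nonneg (m ρ : ℕ) : 0 ≤ gg m ρ := mul_nonneg (aa_nonneg m) (pr_nonneg m ρ)

theorem gg_zero (ρ : ℕ) : gg 0 ρ = 1 := by simp [gg, aa]

/-- the alternating sum is close to the indicator of zero -/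
theorem ind_close (T ρ : ℕ) :
    |(if ρ = 0 then (1 : ℝ) else 0) - ∑ m ∈ range (T + 1 + 1), (-1 : ℝ) ^ m * gg m ρ| ≤
      gg (T + 1) ρ := by
  have h1 := telesc T ((2 : ℝ) ^ ρ)
  have h2 := telesc (T + 1) ((2 : ℝ) ^ ρ)
  by_cases hρ : ρ = 0
  · subst hρ
    have h3 : ∑ m ∈ range (T + 1 + 1), (-1 : ℝ) ^ m * gg m 0 = 1 := by
      rw [Finset.sum_range_succ']
      have h1 : ∑ k ∈ range (T + 1), (-1 : ℝ) ^ (k + 1) * gg (k + 1) 0 = 0 := by
        apply Finset.sum_eq_zero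
        intro k _
        unfold gg
        rw [Finset.prod_range_succ' (fun i => (2 : ℝ) ^ 0 - (2 : ℝ) ^ i) k]
        ring
      rw [h1, gg_zero]
      norm_num
    rw [h3]
    simp only [if_true, sub_self, abs_zero]
    exact gg_nonneg _ _
  · rw [if_neg hρ, zero_sub, abs_neg]
    have h3 := pr_nonneg' T ρ hρ
    have h4 := pr_nonneg' (T + 1) ρ hρ
    have h5 : ∑ m ∈ range (T + 1 + 1), (-1 : ℝ) ^ m * gg m ρ =
        (-1) ^ (T + 1) * (aa (T + 1) * ∏ i ∈ range (T + 1), ((2 : ℝ) ^ ρ - 2 ^ (i + 1))) := h2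
    have h6 : gg (T + 1) ρ = aa T * ∏ i ∈ range T, ((2 : ℝ) ^ ρ - 2 ^ (i + 1)) +
        aa (T + 1) * ∏ i ∈ range (T + 1), ((2 : ℝ) ^ ρ - 2 ^ (i + 1)) := by
      rw [Finset.sum_range_succ, h1] at h2
      have h7 : (-1 : ℝ) ^ (T + 1) * (aa (T + 1) * ∏ i ∈ range (T + 1), ((2 : ℝ) ^ ρ - 2 ^ i)) =
          (-1) ^ (T + 1) * (aa T * ∏ i ∈ range T, ((2 : ℝ) ^ ρ - 2 ^ (i + 1)) +
            aa (T + 1) * ∏ i ∈ range (T + 1), ((2 : ℝ) ^ ρ - 2 ^ (i + 1))) := by
        have e : (-1 : ℝ) ^ (T + 1) = -(-1) ^ T := by rw [pow_succ]; ring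
        rw [e] at h2 ⊢
        linarith
      exact mul_left_cancel₀ (pow_ne_zero _ (by norm_num)) h7
    rw [h5, abs_mul, abs_pow, abs_neg, abs_one, one_pow, one_mul, abs_of_nonneg h4, h6]
    linarith

/-- the sums `∑ aa m` are at most four -/
theorem sum_aa_le (M : ℕ) : ∑ m ∈ range M, aa m ≤ 4 := by
  have h1 : ∀ M : ℕ, ∑ m ∈ range M, aa m ≤ 4 - 4 * (1 / 2 : ℝ) ^ M := by
    intro M
    induction M with
    | zero => simp
    | succ M ih =>
      rw [Finset.sum_range_succ, pow_succ]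
      have := aa_le M
      linarith
  have h2 : (0 : ℝ) ≤ (1 / 2) ^ M := by positivity
  linarith [h1 M]

section joint

variable {I Ω : Type} [Fintype I] [DecidableEq I] [Fintype Ω] [Nonempty Ω]

/-- expectations of products -/
theorem expect_close (r : Ω → I → ℕ) (M : ℕ) (δ : ℝ) (u : I → ℕ → ℝ)
    (h : ∀ m : I → ℕ, (∀ i, m i ≤ M) →
      |(∑ ω, ∏ i, ∏ a ∈ range (m i), ((2 : ℝ) ^ r ω i - 2 ^ a)) / Fintype.card Ω - 1| ≤ δ) :
    |(∑ ω, ∏ i, ∑ m ∈ range (M + 1), u i m * ∏ a ∈ range m, ((2 : ℝ) ^ r ω i - 2 ^ a)) /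
        Fintype.card Ω - ∏ i, ∑ m ∈ range (M + 1), u i m| ≤
      δ * ∏ i, ∑ m ∈ range (M + 1), |u i m| := by
  have e1 : ∀ ω, ∏ i, ∑ m ∈ range (M + 1), u i m * ∏ a ∈ range m, ((2 : ℝ) ^ r ω i - 2 ^ a) =
      ∑ m ∈ Fintype.piFinset (fun _ : I => range (M + 1)), (∏ i, u i (m i)) *
        ∏ i, ∏ a ∈ range (m i), ((2 : ℝ) ^ r ω i - 2 ^ a) := by
    intro ω
    rw [Finset.prod_univ_sum]
    apply Finset.sum_congr rfl
    intro m _
    rw [Finset.prod_mul_distrib]
  have e2 : ∏ i, ∑ m ∈ range (M + 1), u i m =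
      ∑ m ∈ Fintype.piFinset (fun _ : I => range (M + 1)), ∏ i, u i (m i) := by
    rw [Finset.prod_univ_sum]
  have e3 : ∏ i, ∑ m ∈ range (M + 1), |u i m| =
      ∑ m ∈ Fintype.piFinset (fun _ : I => range (M + 1)), ∏ i, |u i (m i)| := by
    rw [Finset.prod_univ_sum]
  rw [Finset.sum_congr rfl fun ω _ => e1 ω, Finset.sum_comm, Finset.sum_div, e2, e3,
    ← Finset.sum_sub_distrib, Finset.mul_sum]
  refine (Finset.abs_sum_le_sum_abs _ _).trans (Finset.sum_le_sum fun m hm => ?_)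
  rw [Fintype.mem_piFinset] at hm
  have h1 := h m fun i => by
    have := hm i
    rw [Finset.mem_range] at this
    omega
  rw [← Finset.mul_sum, mul_div_assoc]
  have e4 : (∏ i, u i (m i)) * ((∑ ω, ∏ i, ∏ a ∈ range (m i), ((2 : ℝ) ^ r ω i - 2 ^ a)) /
      Fintype.card Ω) - ∏ i, u i (m i) = (∏ i, u i (m i)) *
      ((∑ ω, ∏ i, ∏ a ∈ range (m i), ((2 : ℝ) ^ r ω i - 2 ^ a)) / Fintype.card Ω - 1) := by ring
  rw [e4, abs_mul, Finset.abs_prod, mul_comm]
  exact mul_le_mul_of_nonneg_right h1 (Finset.prod_nonneg fun i _ => abs_nonneg _)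

end joint

theorem momj_main (c : ℝ) (hc : c = ∏' i : ℕ, (1 - (1 / 2 : ℝ) ^ (i + 1))) (I : Type) [Fintype I]
    (ε : ℝ) (hε : 0 < ε) :
    ∃ (M : ℕ) (δ : ℝ), 0 < δ ∧ ∀ (Ω : Type) [Fintype Ω] [Nonempty Ω] (r : Ω → I → ℕ),
      (∀ m : I → ℕ, (∀ i, m i ≤ M) →
        |(∑ ω, ∏ i, ∏ a ∈ range (m i), ((2 : ℝ) ^ r ω i - 2 ^ a)) / Fintype.card Ω - 1| ≤ δ) →
      |(∑ ω, if (∀ i, r ω i = 0) then (1 : ℝ) else 0) / Fintype.card Ω - c ^ Fintype.card I| ≤ ε := by
  classical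
  set n := Fintype.card I with hn
  have h4n : (0 : ℝ) < 4 ^ n := by positivity
  obtain ⟨K, hK⟩ := exists_pow_lt_of_lt_one
    (show 0 < ε / (2 * (n + 1) * (8 * 4 ^ n)) by positivity) (show (1 / 2 : ℝ) < 1 by norm_num)
  refine ⟨K + 1, min 1 (ε / (2 * 4 ^ n)), lt_min one_pos (by positivity), ?_⟩
  intro Ω _ _ r hm
  set δ := min 1 (ε / (2 * 4 ^ n)) with hδ
  have hδ1 : δ ≤ 1 := min_le_left _ _
  have hδ0 : 0 ≤ δ := le_min zero_le_one (by positivity)
  have hδ2 : δ * 4 ^ n ≤ ε / 2 := by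
    have : δ ≤ ε / (2 * 4 ^ n) := min_le_right _ _
    calc δ * 4 ^ n ≤ ε / (2 * 4 ^ n) * 4 ^ n := mul_le_mul_of_nonneg_right this h4n.le
      _ = ε / 2 := by field_simp
  have hN : (0 : ℝ) < Fintype.card Ω := by exact_mod_cast Fintype.card_pos
  have hKe : (1 / 2 : ℝ) ^ K * (n * (8 * 4 ^ n)) ≤ ε / 2 := by
    have h1 : (1 / 2 : ℝ) ^ K * (2 * (n + 1) * (8 * 4 ^ n)) ≤ ε := by
      rw [lt_div_iff₀ (by positivity)] at hK
      exact hK.le
    have h2 : (0 : ℝ) ≤ (1 / 2) ^ K * (8 * 4 ^ n) := by positivity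
    nlinarith
  -- the sums
  set G : ℕ → ℝ := fun ρ => ∑ m ∈ range (K + 1 + 1), gg m ρ with hG
  set S : ℕ → ℝ := fun ρ => ∑ m ∈ range (K + 1 + 1), (-1 : ℝ) ^ m * gg m ρ with hS
  have hG1 : ∀ ρ, 1 ≤ G ρ := by
    intro ρ
    rw [← gg_zero ρ]
    exact Finset.single_le_sum (f := fun m => gg m ρ) (fun m _ => gg_nonneg m ρ)
      (Finset.mem_range.2 (by omega))
  have hSG : ∀ ρ, |S ρ| ≤ G ρ := by
    intro ρ
    refine (Finset.abs_sum_le_sum_abs _ _).trans (Finset.sum_le_sum fun m _ => ?_)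
    rw [abs_mul, abs_pow, abs_neg, abs_one, one_pow, one_mul, abs_of_nonneg (gg_nonneg m ρ)]
  have hind : ∀ ω, (if (∀ i, r ω i = 0) then (1 : ℝ) else 0) =
      ∏ i, (if r ω i = 0 then (1 : ℝ) else 0) := by
    intro ω
    split_ifs with h
    · rw [Finset.prod_eq_one]
      intro i _
      rw [if_pos (h i)]
    · push Not at h
      obtain ⟨i, hi⟩ := h
      rw [Finset.prod_eq_zero (Finset.mem_univ i)]
      rw [if_neg hi]
  have hpt : ∀ ω, |∏ i, (if r ω i = 0 then (1 : ℝ) else 0) - ∏ i, S (r ω i)| ≤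
      ∑ i, ∏ k, (if k = i then gg (K + 1) (r ω k) else G (r ω k)) := by
    intro ω
    apply prod_diff Finset.univ (fun i => if r ω i = 0 then (1 : ℝ) else 0) (fun i => S (r ω i))
      (fun i => gg (K + 1) (r ω i)) (fun i => G (r ω i))
    · intro i
      have := hG1 (r ω i)
      show |(if r ω i = 0 then (1 : ℝ) else 0)| ≤ G (r ω i)
      split_ifs
      · rw [abs_one]; exact this
      · rw [abs_zero]; linarith
    · intro i; exact hSG _
    · intro i; exact ind_close K (r ω i)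
  -- the error term
  have herr : ∀ i : I, (∑ ω, ∏ k, (if k = i then gg (K + 1) (r ω k) else G (r ω k))) /
      Fintype.card Ω ≤ 2 * (aa (K + 1) * 4 ^ n) := by
    intro i
    set u : I → ℕ → ℝ := fun k m => if k = i then (if m = K + 1 then aa m else 0) else aa m with hu
    have hu0 : ∀ k m, 0 ≤ u k m := by
      intro k m
      simp only [hu]
      split_ifs
      · exact aa_nonneg m
      · exact le_rfl
      · exact aa_nonneg m
    have h1 := expect_close r (K + 1) δ u hm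
    have h2 : ∀ ω, ∏ k, ∑ m ∈ range (K + 1 + 1), u k m * ∏ a ∈ range m, ((2 : ℝ) ^ r ω k - 2 ^ a) =
        ∏ k, (if k = i then gg (K + 1) (r ω k) else G (r ω k)) := by
      intro ω
      apply Finset.prod_congr rfl
      intro k _
      simp only [hu]
      split_ifs with hk
      · rw [Finset.sum_eq_single (K + 1)]
        · rw [if_pos rfl]; rfl
        · intro m _ hm; rw [if_neg hm, zero_mul]
        · intro h; exact absurd (Finset.mem_range.2 (by omega)) h
      · rfl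
    rw [Finset.sum_congr rfl fun ω _ => h2 ω] at h1
    have h3 : ∏ k, ∑ m ∈ range (K + 1 + 1), |u k m| = ∏ k, ∑ m ∈ range (K + 1 + 1), u k m := by
      apply Finset.prod_congr rfl; intro k _
      apply Finset.sum_congr rfl; intro m _
      exact abs_of_nonneg (hu0 k m)
    rw [h3] at h1
    have h4 : ∏ k, ∑ m ∈ range (K + 1 + 1), u k m ≤ aa (K + 1) * 4 ^ n := by
      rw [← Finset.mul_prod_erase Finset.univ _ (Finset.mem_univ i)]
      have h5 : ∑ m ∈ range (K + 1 + 1), u i m = aa (K + 1) := by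
        simp only [hu, if_true]
        rw [Finset.sum_ite_eq' (range (K + 1 + 1)) (K + 1) aa,
          if_pos (Finset.mem_range.2 (by omega))]
      rw [h5]
      apply mul_le_mul_of_nonneg_left _ (aa_nonneg _)
      calc ∏ k ∈ Finset.univ.erase i, ∑ m ∈ range (K + 1 + 1), u k m
          ≤ ∏ k ∈ Finset.univ.erase i, (4 : ℝ) := by
            apply Finset.prod_le_prod
            · intro k _; exact Finset.sum_nonneg fun m _ => hu0 k m
            · intro k hk
              have hki : k ≠ i := Finset.ne_of_mem_erase hk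
              simp only [hu, if_neg hki]
              exact sum_aa_le _
        _ = 4 ^ (Finset.univ.erase i).card := by rw [Finset.prod_const]
        _ ≤ 4 ^ n := by
            apply pow_le_pow_right₀ (by norm_num)
            rw [hn]
            exact Finset.card_le_univ _
    have h6 : 0 ≤ ∏ k, ∑ m ∈ range (K + 1 + 1), u k m :=
      Finset.prod_nonneg fun k _ => Finset.sum_nonneg fun m _ => hu0 k m
    have h7 := (abs_le.1 h1).2
    nlinarith
  -- the main term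
  have hmain := expect_close r (K + 1) δ (fun _ m => (-1 : ℝ) ^ m * aa m) hm
  have hms : ∀ ω, ∏ i, ∑ m ∈ range (K + 1 + 1), (fun _ m => (-1 : ℝ) ^ m * aa m : I → ℕ → ℝ) i m *
      ∏ a ∈ range m, ((2 : ℝ) ^ r ω i - 2 ^ a) = ∏ i, S (r ω i) := by
    intro ω
    apply Finset.prod_congr rfl
    intro i _
    simp only [hS, gg]
    apply Finset.sum_congr rfl
    intro m _
    ring
  rw [Finset.sum_congr rfl fun ω _ => hms ω] at hmain
  simp only [Finset.prod_const, Finset.card_univ] at hmain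
  have hab : ∀ m, |(-1 : ℝ) ^ m * aa m| = aa m := by
    intro m
    rw [abs_mul, abs_pow, abs_neg, abs_one, one_pow, one_mul, abs_of_nonneg (aa_nonneg m)]
  simp_rw [hab] at hmain
  rw [← hn] at hmain
  have hm1 : δ * (∑ m ∈ range (K + 1 + 1), aa m) ^ n ≤ ε / 2 := by
    refine le_trans (mul_le_mul_of_nonneg_left (pow_le_pow_left₀
      (Finset.sum_nonneg fun m _ => aa_nonneg m) (sum_aa_le _) n) hδ0) hδ2
  -- the power of the constant
  have hcc := (c2_main c hc)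
  have hclose := sum_close c hc (K + 1)
  set A : ℝ := ∑ m ∈ range (K + 1 + 1), (-1 : ℝ) ^ m * aa m with hA
  have hA4 : |A| ≤ 4 := by
    refine (Finset.abs_sum_le_sum_abs _ _).trans ?_
    rw [Finset.sum_congr rfl fun m _ => hab m]
    exact sum_aa_le _
  have hpow : |A ^ n - c ^ n| ≤ 2 * (1 / 2 : ℝ) ^ (K + 1) * (n * 4 ^ n) := by
    refine (abs_pow_sub_pow_le A c n).trans ?_
    rw [mul_assoc]
    have h1 : max |A| |c| ≤ 4 := max_le hA4 (by rw [abs_of_pos hcc.2.1]; linarith [hcc.2.2.1])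
    have h2 : max |A| |c| ^ (n - 1) ≤ 4 ^ n :=
      (pow_le_pow_left₀ (le_max_of_le_left (abs_nonneg _)) h1 _).trans
        (pow_le_pow_right₀ (by norm_num) (Nat.sub_le _ _))
    apply mul_le_mul hclose _ (by positivity) (by positivity)
    exact mul_le_mul_of_nonneg_left h2 (Nat.cast_nonneg _)
  -- the difference
  have hdiff : |(∑ ω, if (∀ i, r ω i = 0) then (1 : ℝ) else 0) / Fintype.card Ω -
      (∑ ω, ∏ i, S (r ω i)) / Fintype.card Ω| ≤ n * (2 * (aa (K + 1) * 4 ^ n)) := by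
    rw [← sub_div, ← Finset.sum_sub_distrib, abs_div, abs_of_pos hN, div_le_iff₀ hN]
    calc |∑ ω, ((if (∀ i, r ω i = 0) then (1 : ℝ) else 0) - ∏ i, S (r ω i))|
        ≤ ∑ ω, ∑ i, ∏ k, (if k = i then gg (K + 1) (r ω k) else G (r ω k)) := by
          refine (Finset.abs_sum_le_sum_abs _ _).trans (Finset.sum_le_sum fun ω _ => ?_)
          rw [hind]
          exact hpt ω
      _ = ∑ i, ∑ ω, ∏ k, (if k = i then gg (K + 1) (r ω k) else G (r ω k)) := Finset.sum_comm
      _ ≤ ∑ i : I, 2 * (aa (K + 1) * 4 ^ n) * Fintype.card Ω := by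
          apply Finset.sum_le_sum
          intro i _
          have := herr i
          rw [div_le_iff₀ hN] at this
          exact this
      _ = n * (2 * (aa (K + 1) * 4 ^ n)) * Fintype.card Ω := by
          rw [Finset.sum_const, Finset.card_univ, nsmul_eq_mul, ← hn]
          ring
  have haK := aa_le (K + 1)
  have hpK : (1 / 2 : ℝ) ^ (K + 1) = (1 / 2) ^ K / 2 := by rw [pow_succ]; ring
  have hf1 : (n : ℝ) * (2 * (aa (K + 1) * 4 ^ n)) ≤ (1 / 2 : ℝ) ^ K * (n * (2 * 4 ^ n)) := by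
    have h1 : aa (K + 1) ≤ (1 / 2 : ℝ) ^ K := by rw [hpK] at haK; linarith
    have h2 : (0 : ℝ) ≤ n * (2 * 4 ^ n) := by positivity
    nlinarith
  have hf2 : 2 * (1 / 2 : ℝ) ^ (K + 1) * (n * 4 ^ n) = (1 / 2 : ℝ) ^ K * (n * 4 ^ n) := by
    rw [hpK]; ring
  rw [hf2] at hpow
  have hf3 : (0 : ℝ) ≤ (1 / 2 : ℝ) ^ K * (n * 4 ^ n) := by positivity
  have hf4 : (1 / 2 : ℝ) ^ K * (n * (8 * 4 ^ n)) = 8 * ((1 / 2 : ℝ) ^ K * (n * 4 ^ n)) := by ring
  have hf5 : (1 / 2 : ℝ) ^ K * (n * (2 * 4 ^ n)) = 2 * ((1 / 2 : ℝ) ^ K * (n * 4 ^ n)) := by ring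
  rw [hf4] at hKe
  rw [hf5] at hf1
  rw [abs_le] at hdiff hmain hpow ⊢
  constructor <;> linarith

end Pool.Agent.R306.QJ
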